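import Pool.Agent.H61.DF.Targets
import Pool.Agent.H83.FM.MOT

/-!
# NMT: the second moment with initial sums of any length, real quadratic fields
-/

set_option autoImplicit false

open MeasureTheory Set Filter NumberField
open scoped Real nonZeroDivisors
open Pool.Agent.H31.CN Pool.Agent.H89.FM Pool.Agent.H61.FM Pool.Agent.H89.FC Pool.Agent.H89.DF
open Pool.Agent.H61.DF

namespace Pool.Agent.H98.DF

/-- the trivial bound for the sum -/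
theorem trivr (C2 C3 C4 : ℝ) (k3 : ℕ) (hC2 : 0 < C2) (hC3 : 0 < C3) (hC4 : 0 < C4)
    (h2 : ∀ (K : Type) [Field K] [NumberField K] (σ σ' : K →+* ℝ) (D f κ : ℕ) (ν : ℝ)
      (ψ : Ideal (𝓞 K) → ℂ), RQ K D σ σ' → RCr K σ σ' f κ ν ψ →
      Measurable (Sc ψ) ∧ ∀ x : ℝ, 1 ≤ x → ‖Sc ψ x‖ ≤ C2 * x ^ 2)
    (h3 : ∀ (K : Type) [Field K] [NumberField K]
      (σ σ' : K →+* ℝ) (D f κ : ℕ) (ν : ℝ) (ψ : Ideal (𝓞 K) → ℂ) (F : ℂ → ℂ),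
      RQ K D σ σ' → RCr K σ σ' f κ ν ψ → IsL ψ F → ∀ s : ℂ,
      |s.re - 1 / 2| ≤ 1 / 8 →
      ‖F s‖ ≤ C3 * (1 + |s.im| + |ν|) ^ k3 * ((D : ℝ) * (f : ℝ) ^ 2) ^ 2)
    (h4 : ∀ (X V : ℝ) (K : ℕ → Type) [∀ D, Field (K D)] [∀ D, NumberField (K D)]
      (σ σ' : ∀ D, K D →+* ℝ) (S : Finset (IXr K)) (f κ : IXr K → ℕ) (ν : IXr K → ℝ)
      (F : IXr K → ℂ → ℂ), 1 ≤ X → 1 ≤ V → Famr K σ σ' S f κ ν F 0 X V →
      (S.card : ℝ) ≤ C4 * V ^ 2 * X ^ 3)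
    (s : ℂ) (hs : |s.re - 1 / 2| ≤ 1 / 8) (X V x : ℝ) (K : ℕ → Type) [∀ D, Field (K D)]
    [∀ D, NumberField (K D)] (σ σ' : ∀ D, K D →+* ℝ) (S : Finset (IXr K)) (f κ : IXr K → ℕ)
    (ν : IXr K → ℝ) (F : IXr K → ℂ → ℂ)
    (hX : 1 ≤ X) (hV : 1 ≤ V) (hx : 1 ≤ x) (hF : Famr K σ σ' S f κ ν F (X / 4) X V) :
    ∑ y ∈ S, ‖Sc y.2 x‖ ^ 2 * ‖F y s‖ ^ 2 ≤
      C4 * C2 ^ 2 * C3 ^ 2 * (1 + |s.im| + V) ^ (2 + 2 * k3) * X ^ 7 * x ^ 4 := by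
  have hX0 : 0 < X := by linarith
  have hx0 : 0 < x := by linarith
  have hsi := abs_nonneg s.im
  obtain ⟨T, hT⟩ : ∃ T, T = 1 + |s.im| + V := ⟨_, rfl⟩
  rw [← hT]
  have hT1 : 1 ≤ T := by
    rw [hT]
    linarith
  have hVT : V ≤ T := by
    rw [hT]
    linarith
  have hF0 : Famr K σ σ' S f κ ν F 0 X V :=
    ⟨fun y hy => ⟨by unfold lvr; positivity, (hF.q y hy).2⟩, hF.rq, hF.ch, hF.lf, hF.nu⟩
  have hcard0 := h4 X V K σ σ' S f κ ν F hX hV hF0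
  have hcard : (S.card : ℝ) ≤ C4 * T ^ 2 * X ^ 3 := by
    refine hcard0.trans ?_
    gcongr
  have hterm : ∀ y ∈ S, ‖Sc y.2 x‖ ^ 2 * ‖F y s‖ ^ 2 ≤
      (C2 * x ^ 2) ^ 2 * (C3 * T ^ k3 * X ^ 2) ^ 2 := by
    intro y hy
    have a1 := (h2 (K y.1) (σ y.1) (σ' y.1) y.1 (f y) (κ y) (ν y) y.2 (hF.rq y hy)
      (hF.ch y hy)).2 x hx
    have a2 := h3 (K y.1) (σ y.1) (σ' y.1) y.1 (f y) (κ y) (ν y) y.2 (F y) (hF.rq y hy)
      (hF.ch y hy) (hF.lf y hy) s hs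
    have a5 : (0 : ℝ) ≤ (y.1 : ℝ) * (f y : ℝ) ^ 2 := by positivity
    have a7 : 1 + |s.im| + |ν y| ≤ T := by
      rw [hT]
      have := hF.nu y hy
      linarith
    have a8 : 0 ≤ 1 + |s.im| + |ν y| := by
      have := abs_nonneg (ν y)
      linarith
    have a3 : C3 * (1 + |s.im| + |ν y|) ^ k3 * ((y.1 : ℝ) * (f y : ℝ) ^ 2) ^ 2 ≤
        C3 * T ^ k3 * X ^ 2 := by
      have a6 : (y.1 : ℝ) * (f y : ℝ) ^ 2 ≤ X := (hF.q y hy).2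
      gcongr
    have a4 : ‖F y s‖ ≤ C3 * T ^ k3 * X ^ 2 := le_trans a2 a3
    gcongr
  have hsum2 := Finset.sum_le_card_nsmul S _ _ hterm
  rw [nsmul_eq_mul] at hsum2
  refine le_trans hsum2 ?_
  calc (S.card : ℝ) * ((C2 * x ^ 2) ^ 2 * (C3 * T ^ k3 * X ^ 2) ^ 2)
      ≤ (C4 * T ^ 2 * X ^ 3) * ((C2 * x ^ 2) ^ 2 * (C3 * T ^ k3 * X ^ 2) ^ 2) := by
        apply mul_le_mul_of_nonneg_right hcard (by positivity)
    _ = C4 * C2 ^ 2 * C3 ^ 2 * T ^ (2 + 2 * k3) * X ^ 7 * x ^ 4 := by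
        rw [pow_add, mul_comm 2 k3, pow_mul]
        ring

theorem pf_MOTr (hMOS : T_MOSr) (hSPT : T_SPTr) (hTRB : T_TRBr) (hCRD : T_CRDr) : T_MOTr := by
  intro ε hε
  obtain ⟨κ₀, hκ0, hκ1, δ, hδ0, hδ1, C1, k1, hC1, h1⟩ := hMOS ε hε
  obtain ⟨C2, hC2, h2⟩ := hSPT
  obtain ⟨C3, k3, hC3, h3⟩ := hTRB
  obtain ⟨C4, hC4, h4⟩ := hCRD
  refine ⟨κ₀, hκ0, hκ1, ?_⟩
  intro c j hc
  obtain ⟨B, hB⟩ : ∃ B, B = ⌈36 / δ⌉₊ := ⟨_, rfl⟩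
  have hBd : 36 / δ ≤ (B : ℝ) := by
    rw [hB]
    exact Nat.le_ceil _
  obtain ⟨A, hA⟩ : ∃ A, A = C4 * C2 ^ 2 * C3 ^ 2 := ⟨_, rfl⟩
  have hA0 : 0 < A := by
    rw [hA]
    positivity
  have hf : (0 : ℝ) < (Nat.factorial B : ℝ) := by exact_mod_cast Nat.factorial_pos B
  refine ⟨C1 + A * ((Nat.factorial B : ℝ) / c ^ B), k1 + (2 + 2 * k3 + j * B), by positivity, ?_⟩
  intro s X V x K _ _ σ σ' S f κ ν F hs hX hV hx hF
  have hsi := abs_nonneg s.im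
  obtain ⟨T, hT⟩ : ∃ T, T = 1 + |s.im| + V := ⟨_, rfl⟩
  rw [← hT]
  have hT1 : 1 ≤ T := by
    rw [hT]
    linarith
  have hTj : 1 ≤ T ^ j := one_le_pow₀ hT1
  have hX0 : 0 < X := by linarith
  have hx0 : 0 < x := by linarith
  obtain ⟨E, hE⟩ : ∃ E, E = X ^ (3 / 2 + ε) * x ^ (1 + ε) := ⟨_, rfl⟩
  have hE1 : 1 ≤ E := by
    have a1 : 1 ≤ X ^ (3 / 2 + ε) := Real.one_le_rpow hX (by linarith)
    have a2 : 1 ≤ x ^ (1 + ε) := Real.one_le_rpow hx (by linarith)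
    rw [hE]
    nlinarith
  have hnn : 0 ≤ ∑ y ∈ S, ‖Sc y.2 x‖ ^ 2 * ‖F y s‖ ^ 2 :=
    Finset.sum_nonneg (fun y _ => by positivity)
  have hfin : (C1 + A * ((Nat.factorial B : ℝ) / c ^ B)) * T ^ (k1 + (2 + 2 * k3 + j * B)) *
      X ^ (3 / 2 + ε) * x ^ (1 + ε) =
      C1 * T ^ (k1 + (2 + 2 * k3 + j * B)) * E +
      A * ((Nat.factorial B : ℝ) / c ^ B) * T ^ (k1 + (2 + 2 * k3 + j * B)) * E := by
    rw [hE]
    ring
  rw [hfin]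
  by_cases hcase : x ≤ X ^ ((1 + δ) / 2)
  · have b1 := h1 s X V x K σ σ' S f κ ν F hs hX hV hx hcase hF
    rw [← hT] at b1
    have b2 : Real.exp (-(c * x / (Real.sqrt X * T ^ j))) ≤ 1 := by
      rw [Real.exp_le_one_iff]
      have : 0 ≤ c * x / (Real.sqrt X * T ^ j) := by positivity
      linarith
    calc (∑ y ∈ S, ‖Sc y.2 x‖ ^ 2 * ‖F y s‖ ^ 2) *
          Real.exp (-(c * x / (Real.sqrt X * T ^ j)))
        ≤ (∑ y ∈ S, ‖Sc y.2 x‖ ^ 2 * ‖F y s‖ ^ 2) * 1 := by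
          apply mul_le_mul_of_nonneg_left b2 hnn
      _ ≤ C1 * T ^ k1 * X ^ (3 / 2 + ε) * x ^ (1 + ε) := by
          rw [mul_one]
          exact b1
      _ = C1 * T ^ k1 * E := by
          rw [hE]
          ring
      _ ≤ C1 * T ^ (k1 + (2 + 2 * k3 + j * B)) * E := by
          have : T ^ k1 ≤ T ^ (k1 + (2 + 2 * k3 + j * B)) :=
            pow_le_pow_right₀ hT1 (Nat.le_add_right _ _)
          gcongr
      _ ≤ _ := by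
          have : 0 ≤ A * ((Nat.factorial B : ℝ) / c ^ B) *
              T ^ (k1 + (2 + 2 * k3 + j * B)) * E := by
            positivity
          linarith
  · have hxX : X ^ ((1 + δ) / 2) < x := not_le.mp hcase
    obtain ⟨hXx, hexp⟩ :=
      Pool.Agent.H83.FM.MOTX.exp_small δ c (T ^ j) X x hδ0 hδ1 hc hTj hX hx hxX B hBd
    have b3 := trivr C2 C3 C4 k3 hC2 hC3 hC4 h2 h3 h4 s (le_trans hs hκ1) X V x K σ σ' S f κ ν F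
      hX hV hx hF
    rw [← hT] at b3
    have b4 : C4 * C2 ^ 2 * C3 ^ 2 * T ^ (2 + 2 * k3) * X ^ 7 * x ^ 4 ≤
        A * T ^ (2 + 2 * k3) * x ^ 18 := by
      have : X ^ 7 ≤ (x ^ 2) ^ 7 := by gcongr
      calc C4 * C2 ^ 2 * C3 ^ 2 * T ^ (2 + 2 * k3) * X ^ 7 * x ^ 4
          = A * T ^ (2 + 2 * k3) * X ^ 7 * x ^ 4 := by rw [hA]
        _ ≤ A * T ^ (2 + 2 * k3) * (x ^ 2) ^ 7 * x ^ 4 := by gcongr
        _ = A * T ^ (2 + 2 * k3) * x ^ 18 := by ring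
    calc (∑ y ∈ S, ‖Sc y.2 x‖ ^ 2 * ‖F y s‖ ^ 2) *
          Real.exp (-(c * x / (Real.sqrt X * T ^ j)))
        ≤ (A * T ^ (2 + 2 * k3) * x ^ 18) * Real.exp (-(c * x / (Real.sqrt X * T ^ j))) := by
          apply mul_le_mul_of_nonneg_right (le_trans b3 b4) (Real.exp_pos _).le
      _ = A * T ^ (2 + 2 * k3) * (x ^ 18 * Real.exp (-(c * x / (Real.sqrt X * T ^ j)))) := by
          ring
      _ ≤ A * T ^ (2 + 2 * k3) * ((Nat.factorial B : ℝ) / c ^ B * (T ^ j) ^ B) := by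
          apply mul_le_mul_of_nonneg_left hexp (by positivity)
      _ = A * ((Nat.factorial B : ℝ) / c ^ B) * T ^ (2 + 2 * k3 + j * B) * 1 := by
          rw [pow_add T (2 + 2 * k3) (j * B), pow_mul T j B]
          ring
      _ ≤ A * ((Nat.factorial B : ℝ) / c ^ B) * T ^ (k1 + (2 + 2 * k3 + j * B)) * E := by
          have : T ^ (2 + 2 * k3 + j * B) ≤ T ^ (k1 + (2 + 2 * k3 + j * B)) :=
            pow_le_pow_right₀ hT1 (Nat.le_add_left _ _)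
          gcongr
      _ ≤ _ := by
          have : 0 ≤ C1 * T ^ (k1 + (2 + 2 * k3 + j * B)) * E := by positivity
          linarith

end Pool.Agent.H98.DF
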