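import Pool.Agent.H95.DR.Targets
import Pool.Agent.H21.CF.PNCU

/-!
# Row ANC of the board `dfx_modules`: the sum over the lines which contain `u`
-/

set_option autoImplicit false

open MeasureTheory Set Filter NumberField
open scoped Real nonZeroDivisors Matrix MatrixGroups

namespace Pool.Agent.H98.DF

open Pool.Agent.H31.CN Pool.Agent.H89.FM Pool.Agent.H61.FM Pool.Agent.H89.FC Pool.Agent.H95.FC
open Pool.Agent.H89.DF Pool.Agent.H95.DR

theorem det_swap (u v : ℤ × ℤ) : det u v = -det v u := by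
  unfold det
  ring

theorem cop_of_det {V W : ℤ × ℤ} (h : det V W = 1) : IsCoprime V.1 V.2 := by
  refine ⟨W.2, -W.1, ?_⟩
  unfold det at h
  linear_combination h

theorem ne_of_det {V W : ℤ × ℤ} (h : det V W = 1) : V ≠ 0 := by
  rintro rfl
  simp [det] at h

open Classical in
/-- (NCU) the sum over the lines which contain `u`. -/
theorem pf_NCUr (hTRN : Pool.Agent.H95.FC.T_TRN) (hRHOr : T_RHOr) (hPRIr : T_PRIr) : T_NCUr := by
  intro K _ _ σ σ' f κ ν ψ I α β Q b T W hOB hVB hLT hR u hu
  by_cases hU : Uv f Q u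
  · rw [if_pos hU]
    obtain ⟨V0, hV0, hd0⟩ := hLT.ex u hU
    have key : ∀ V ∈ T, ((f : ℤ) ∣ det V u ↔ V = V0) := by
      intro V hV
      constructor
      · intro h1
        refine hLT.uni V hV V0 hV0 ?_
        refine hTRN.1 f Q V u V0 hU h1 ?_
        rw [det_swap]
        exact (dvd_neg).2 hd0
      · rintro rfl
        exact hd0
    rw [Finset.sum_congr rfl (g := fun V => if V = V0 then rtr σ σ' κ ν ψ b α β V else 0)]
    · rw [Finset.sum_ite_eq' T V0, if_pos hV0]
      exact (hRHOr K σ σ' f κ ν ψ I α β Q b hOB hVB hR).1 V0 u (ne_of_det (hLT.one V0 hV0)) hu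
        (hLT.un V0 hV0) hU hd0
    · intro V hV
      exact if_congr (key V hV) rfl rfl
  · rw [if_neg hU]
    obtain ⟨p, hp, hpd⟩ : ∃ p : ℕ, p.Prime ∧ p ∣ Int.gcd (val Q u) (f : ℤ) := by
      apply Nat.exists_prime_and_dvd
      intro h
      exact hU (Int.isCoprime_iff_gcd_eq_one.2 h)
    have hp1 : (p : ℤ) ∣ val Q u :=
      (Int.natCast_dvd_natCast.2 hpd).trans (Int.gcd_dvd_left _ _)
    have hp2 : p ∣ f := by
      have := (Int.natCast_dvd_natCast.2 hpd).trans (Int.gcd_dvd_right _ _)
      exact_mod_cast this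
    have hfp : (f : ℤ) = ((f / p : ℕ) : ℤ) * (p : ℤ) := by
      rw [← Nat.cast_mul, Nat.div_mul_cancel hp2]
    have key2 := hPRIr K σ σ' f κ ν ψ I α β Q b T W hOB hVB hLT hR p
      (fun V => (f : ℤ) ∣ det V u) hp hp2 (by
        intro V hV V' hV' hg
        constructor
        · intro h1
          exact Pool.Agent.H21.CF.dt_inv hfp (Nat.prime_iff_prime_int.1 hp)
            (cop_of_det (hLT.one V hV)) (hLT.un V hV) hp1 h1 hg
        · intro h1
          refine Pool.Agent.H21.CF.dt_inv hfp (Nat.prime_iff_prime_int.1 hp)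
            (cop_of_det (hLT.one V' hV')) (hLT.un V' hV') hp1 h1 ?_
          have := (dvd_neg).2 hg
          rw [← det_swap] at this
          exact this)
    refine Eq.trans ?_ key2
    refine Finset.sum_congr rfl fun V _ => ?_
    by_cases h : (f : ℤ) ∣ det V u
    · rw [if_pos h, if_pos h]
    · rw [if_neg h, if_neg h]

end Pool.Agent.H98.DF
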